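import Pool.Agent.Helper41.SV.Final

/-!
Let `k ≥ 3`, `n 1, ..., n k ≥ 1`, and let `T` be a general tensor of format
`(n 1 + 1, ..., n k + 1, n 1 + ... + n k + 2)` over `ℂ` (just beyond boundary format). The span of
the singular vector tuples of `T` is the critical space of `T`, except for the three formats
`(2,2,2,5)`, `(2,2,3,6)`, `(2,2,4,7)` (first three factors up to order), where it is strictly
smaller, of the codimension predicted in the problem (3, 3, 1).
-/

open Module Pool.Agent.Helper41.SV

namespace Pool.Agent.Results.MP_f2a874_ag.SpanSingular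

theorem result (k : ℕ) (hk : 3 ≤ k) (n : Fin k → ℕ) (hn : ∀ j, 1 ≤ n j) :
    Gen (fun T : Idx (fmt n) → ℂ =>
      singSpan T ≤ critSpace T ∧
      (¬ Exceptional n → singSpan T = critSpace T) ∧
      (Exceptional n → singSpan T < critSpace T) ∧
      (finrank ℂ (critSpace T) : ℤ) - finrank ℂ (singSpan T) = excess n) :=
  main k hk n hn

end Pool.Agent.Results.MP_f2a874_ag.SpanSingular
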